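import Mathlib
import Pool.Agent.TH437.Defs

/-!
# Reduced even and odd Latin squares: the odd orders

For every even `m ≥ 2`, `rels (m+1) - rols (m+1) = (m-1)! (rels m - rols m)`.
-/

set_option autoImplicit false

namespace Pool.Agent.Results.MP_90e87d_co.OddOrders

open Pool.Agent.TH437.ReducedLS

/-- For every even `m ≥ 2`, the signed number of reduced Latin squares of the odd order `m + 1` is
`(m - 1)!` times the signed number of reduced Latin squares of the even order `m`. -/
theorem result (m : ℕ) (hm : Even m) (hpos : 0 < m) :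
    (rels (m + 1) : ℤ) - rols (m + 1) = (m - 1).factorial * ((rels m : ℤ) - rols m) := by
  rw [diff_eq (m + 1) 0 rfl, diff_eq m ⟨0, hpos⟩ rfl]
  exact Pool.Agent.TH437.RL.Tsum_succ m hm ⟨0, hpos⟩

end Pool.Agent.Results.MP_90e87d_co.OddOrders
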