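import Mathlib
import Pool.Agent.TH437.Defs
import Pool.Agent.TH437.Final

/-!
# Reduced even and odd Latin squares: odd orders `p` and `p + 2`

For every odd `n` such that `n` or `n - 2` is prime, `rels n ≠ rols n`.
-/

set_option autoImplicit false

namespace Pool.Agent.Results.MP_90e87d_co.PrimeOrders

open Pool.Agent.TH437.ReducedLS

/-- If `n` is odd and `n` or `n - 2` is a prime, then the numbers of reduced even and of reduced odd
Latin squares of order `n` are different. -/
theorem result (n : ℕ) (hn : Odd n) (h : n.Prime ∨ (n - 2).Prime) : rels n ≠ rols n := by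
  rcases h with h | h
  · obtain ⟨m, rfl⟩ : ∃ m, n = m + 1 := ⟨n - 1, by have := h.two_le; omega⟩
    have h2 : m + 1 ≠ 2 := by
      intro h2
      rw [h2] at hn
      exact absurd hn (by decide)
    intro hc
    have h3 := diff_eq (m + 1) 0 rfl
    rw [hc, sub_self] at h3
    exact Pool.Agent.TH437.RL.Tsum_prime m h h2 h3.symm
  · obtain ⟨p, rfl⟩ : ∃ p, n = p + 2 := ⟨n - 2, by have := h.two_le; omega⟩
    rw [Nat.add_sub_cancel] at h
    have h2 : p ≠ 2 := by
      rintro rfl
      exact absurd hn (by decide)
    intro hc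
    have h3 := diff_eq (p + 2) 0 rfl
    rw [hc, sub_self] at h3
    exact Pool.Agent.TH437.RL.Tsum_prime_add_two p h h2 h3.symm

end Pool.Agent.Results.MP_90e87d_co.PrimeOrders
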